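import Pool.Agent.helper74.VQ.SpecA

/-!
Row `vq:VBR` (MP_07c750_an): the profile of the packets.
-/

set_option autoImplicit false

open scoped MatrixGroups ContDiff Topology UpperHalfPlane ComplexConjugate ENNReal
open UpperHalfPlane MeasureTheory Filter Set

namespace Pool.Agent.VQ

open Pool.Agent.RS

theorem VBR_gauss (b : ℝ) (hb : 0 < b) : ∫ v : ℂ, Real.exp (-(b * ‖v‖ ^ 2)) = Real.pi / b := by
  have h := GaussianFourier.integral_rexp_neg_mul_sq_norm (V := ℂ) hb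
  rw [Complex.finrank_real_complex] at h
  have h1 : ((2 : ℕ) : ℝ) / 2 = 1 := by norm_num
  rw [h1, Real.rpow_one] at h
  rw [← h]
  refine integral_congr_ae (Eventually.of_forall fun v => ?_)
  show Real.exp (-(b * ‖v‖ ^ 2)) = Real.exp (-b * ‖v‖ ^ 2)
  rw [neg_mul]

theorem VBR_gint (b : ℝ) (hb : 0 < b) : Integrable (fun v : ℂ => Real.exp (-(b * ‖v‖ ^ 2))) := by
  by_contra h
  have h1 := integral_undef h
  rw [VBR_gauss b hb] at h1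
  have h2 : 0 < Real.pi / b := div_pos Real.pi_pos hb
  rw [h1] at h2
  exact lt_irrefl _ h2

/-- large numbers -/
theorem VBR_large (ζ : ℝ) (hζ : 0 < ζ) : ∃ R0 : ℝ, 256 ≤ R0 ∧ ∀ R : ℝ, R0 ≤ R →
    2 * Real.exp (-(R ^ (2 * ζ) / 4)) ≤ R ^ (-(1 / 2) : ℝ) := by
  have h1 := (isLittleO_log_rpow_atTop (r := 2 * ζ) (by positivity)).bound (c := 1 / 4) (by norm_num)
  have h2 := (tendsto_rpow_atTop (y := 2 * ζ) (by positivity)).eventually_ge_atTop 8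
  obtain ⟨R1, hR1⟩ := eventually_atTop.1 (h1.and h2)
  refine ⟨max R1 256, le_max_right _ _, fun R hR => ?_⟩
  have h3 : 256 ≤ R := le_trans (le_max_right _ _) hR
  have h4 := hR1 R (le_trans (le_max_left _ _) hR)
  have hR0 : 0 < R := by linarith
  have h5 : Real.log R ≤ 1 / 4 * R ^ (2 * ζ) := by
    have h6 := h4.1
    rw [Real.norm_eq_abs, Real.norm_eq_abs, abs_of_nonneg (Real.rpow_nonneg hR0.le _)] at h6
    exact (le_abs_self _).trans h6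
  have h6 : Real.log 2 ≤ 1 := by
    have := Real.log_two_lt_d9
    linarith
  have h7 : 2 * Real.exp (-(R ^ (2 * ζ) / 4)) = Real.exp (Real.log 2 + -(R ^ (2 * ζ) / 4)) := by
    rw [Real.exp_add, Real.exp_log (by norm_num)]
  rw [h7, Real.rpow_def_of_pos hR0 (-(1 / 2))]
  refine Real.exp_le_exp.2 ?_
  have h8 := h4.2
  nlinarith

/-- small radii -/
theorem VBR_num (ζ R : ℝ) (hζ : 0 < ζ) (hζ8 : ζ ≤ 1 / 8) (hR : 256 ≤ R) :
    R ^ (-(1 / 2) : ℝ) ≤ 1 / 16 ∧ R ^ (-(1 / 2) + ζ) ≤ 1 / 4 ∧ (R ^ (-(1 / 2) + ζ)) ^ 2 ≤ R ^ (-(1 / 2) : ℝ) / 4 ∧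
      (R ^ (-(1 / 2) + ζ)) ^ 2 * R ^ (1 - 2 * ζ) = 1 ∧ (R ^ (-(1 / 2) + ζ)) ^ 2 * R = R ^ (2 * ζ) := by
  have hR0 : 0 < R := by linarith
  have hR1 : 1 ≤ R := by linarith
  have h1 : R ^ (-(1 / 2) : ℝ) ≤ 1 / 16 := by
    have h2 : R ^ (-(1 / 2) : ℝ) ≤ (256 : ℝ) ^ (-(1 / 2) : ℝ) :=
      Real.rpow_le_rpow_of_nonpos (by norm_num) hR (by norm_num)
    have h3 : (256 : ℝ) ^ (-(1 / 2) : ℝ) = 1 / 16 := by
      rw [show (256 : ℝ) = 2 ^ (8 : ℝ) by norm_num, ← Real.rpow_mul (by norm_num)]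
      norm_num
    rwa [h3] at h2
  have h4 : (R ^ (-(1 / 2) + ζ)) ^ 2 = R ^ (-1 + 2 * ζ) := by
    rw [← Real.rpow_natCast, ← Real.rpow_mul hR0.le]
    congr 1
    push_cast
    ring
  have h5 : (R ^ (-(1 / 2) + ζ)) ^ 2 ≤ R ^ (-(1 / 2) : ℝ) / 4 := by
    rw [h4]
    have h6 : R ^ (-1 + 2 * ζ) ≤ R ^ (-(1 / 2) + -(1 / 4) : ℝ) :=
      Real.rpow_le_rpow_of_exponent_le hR1 (by linarith)
    have h6' := Real.rpow_add hR0 (-(1 / 2)) (-(1 / 4))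
    rw [h6'] at h6
    have h7 : R ^ (-(1 / 4) : ℝ) ≤ 1 / 4 := by
      have h8 : R ^ (-(1 / 4) : ℝ) ≤ (256 : ℝ) ^ (-(1 / 4) : ℝ) :=
        Real.rpow_le_rpow_of_nonpos (by norm_num) hR (by norm_num)
      have h9 : (256 : ℝ) ^ (-(1 / 4) : ℝ) = 1 / 4 := by
        rw [show (256 : ℝ) = 2 ^ (8 : ℝ) by norm_num, ← Real.rpow_mul (by norm_num)]
        norm_num
      rwa [h9] at h8
    have h10 : 0 ≤ R ^ (-(1 / 2) : ℝ) := Real.rpow_nonneg hR0.le _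
    nlinarith
  refine ⟨h1, ?_, h5, ?_, ?_⟩
  · have h6 : 0 ≤ R ^ (-(1 / 2) + ζ) := Real.rpow_nonneg hR0.le _
    nlinarith
  · rw [h4, ← Real.rpow_add hR0]
    rw [show (-1 + 2 * ζ + (1 - 2 * ζ)) = 0 by ring, Real.rpow_zero]
  · rw [h4]
    nth_rewrite 2 [← Real.rpow_one R]
    rw [← Real.rpow_add hR0]
    congr 1
    ring

theorem VBR_jd (v : ℂ) (hv : ‖v‖ < 2) : 1 ≤ jd v := by
  unfold jd
  have h1 : 0 ≤ ‖v‖ := norm_nonneg v
  have h2 : 0 < 1 - ‖v‖ ^ 2 / 4 := by nlinarith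
  have h3 : (1 - ‖v‖ ^ 2 / 4) ^ 2 ≤ 1 := by nlinarith [sq_nonneg ‖v‖]
  exact (one_le_inv₀ (by positivity)).2 h3

theorem VBR_jd0 (v : ℂ) : 0 ≤ jd v := by
  unfold jd
  positivity

theorem VBR_jm : Measurable jd := by
  unfold jd
  fun_prop

theorem VBR_smooth (ch : ℝ → ℝ) (ζ R : ℝ) (hch : CH ch) : ContDiff ℝ ∞ (b0 ch ζ R) := by
  have h1 : ContDiff ℝ ∞ (fun v : ℂ => ‖v‖ ^ 2) := contDiff_norm_sq ℝ
  have h2 : ContDiff ℝ ∞ (fun v : ℂ => Real.exp (-(R * ‖v‖ ^ 2 / 2))) :=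
    Real.contDiff_exp.comp ((contDiff_const.mul h1).div_const 2).neg
  have h3 : ContDiff ℝ ∞ (fun v : ℂ => ch (R ^ (1 - 2 * ζ) * ‖v‖ ^ 2)) :=
    hch.smooth.comp (contDiff_const.mul h1)
  exact h2.mul h3

theorem VBR_bd (ch : ℝ → ℝ) (ζ R : ℝ) (hch : CH ch) (v : ℂ) :
    0 ≤ b0 ch ζ R v ∧ b0 ch ζ R v ≤ Real.exp (-(R * ‖v‖ ^ 2 / 2)) := by
  unfold b0
  have h1 := hch.bd (R ^ (1 - 2 * ζ) * ‖v‖ ^ 2)
  have h2 : 0 < Real.exp (-(R * ‖v‖ ^ 2 / 2)) := Real.exp_pos _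
  exact ⟨mul_nonneg h2.le h1.1, mul_le_of_le_one_right h2.le h1.2⟩

theorem VBR_supp (ch : ℝ → ℝ) (ζ R : ℝ) (hζ : 0 < ζ) (hζ8 : ζ ≤ 1 / 8) (hR : 256 ≤ R) (hch : CH ch) (v : ℂ)
    (hv : b0 ch ζ R v ≠ 0) : ‖v‖ ^ 2 ≤ (R ^ (-(1 / 2) + ζ)) ^ 2 := by
  obtain ⟨-, -, -, h4, -⟩ := VBR_num ζ R hζ hζ8 hR
  have hR0 : 0 < R := by linarith
  have h5 : 0 < R ^ (1 - 2 * ζ) := Real.rpow_pos_of_pos hR0 _
  have h6 : R ^ (1 - 2 * ζ) * ‖v‖ ^ 2 < 1 := by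
    by_contra hcon
    push Not at hcon
    refine hv ?_
    unfold b0
    rw [hch.zero _ hcon, mul_zero]
  by_contra hcon
  push Not at hcon
  have h7 := mul_lt_mul_of_pos_right hcon h5
  rw [h4] at h7
  linarith

theorem VBR_one (ch : ℝ → ℝ) (ζ R : ℝ) (hζ : 0 < ζ) (hζ8 : ζ ≤ 1 / 8) (hR : 256 ≤ R) (hch : CH ch) (v : ℂ)
    (hv : ‖v‖ ^ 2 ≤ (R ^ (-(1 / 2) + ζ)) ^ 2 / 2) : b0 ch ζ R v = Real.exp (-(R * ‖v‖ ^ 2 / 2)) := by
  obtain ⟨-, -, -, h4, -⟩ := VBR_num ζ R hζ hζ8 hR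
  have hR0 : 0 < R := by linarith
  have h5 : 0 < R ^ (1 - 2 * ζ) := Real.rpow_pos_of_pos hR0 _
  have h6 : R ^ (1 - 2 * ζ) * ‖v‖ ^ 2 ≤ 1 / 2 := by
    have h7 := mul_le_mul_of_nonneg_left hv h5.le
    nlinarith
  unfold b0
  rw [hch.one _ h6, mul_one]

/-- the integral in the disc coordinate -/
theorem VBR_int (hVCD : VCD_stmt) (hVCM : VCM_stmt) (ch : ℝ → ℝ) (ζ R : ℝ) :
    bR ch ζ R = ∫ v : ℂ, (Metric.ball (0 : ℂ) 2).indicator (fun v => jd v * (b0 ch ζ R v ^ 2 * jd v)) v := by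
  unfold bR
  rw [hVCM.1 ℝ 1 (fun w => b0 ch ζ R (cd w) ^ 2 * jd (cd w)), integral_indicator measurableSet_ball]
  refine setIntegral_congr_fun measurableSet_ball fun v hv => ?_
  have h1 : ‖v‖ < 2 := by rwa [mem_ball_zero_iff] at hv
  have h2 := (hVCD.2.1 v h1).1
  show jd v • (b0 ch ζ R (cd ((1 : SL(2, ℝ)) • cdi v)) ^ 2 * jd (cd ((1 : SL(2, ℝ)) • cdi v))) = _
  rw [one_smul, h2, smul_eq_mul]

theorem VBR_up (ch : ℝ → ℝ) (ζ R : ℝ) (hζ : 0 < ζ) (hζ8 : ζ ≤ 1 / 8) (hR : 256 ≤ R) (hch : CH ch) (v : ℂ) :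
    (Metric.ball (0 : ℂ) 2).indicator (fun v => jd v * (b0 ch ζ R v ^ 2 * jd v)) v ≤
      (1 + R ^ (-(1 / 2) : ℝ)) * Real.exp (-(R * ‖v‖ ^ 2)) := by
  obtain ⟨h1, -, h3, -, -⟩ := VBR_num ζ R hζ hζ8 hR
  have hR0 : 0 < R := by linarith
  have he : 0 < R ^ (-(1 / 2) : ℝ) := Real.rpow_pos_of_pos hR0 _
  have hE : 0 < Real.exp (-(R * ‖v‖ ^ 2)) := Real.exp_pos _
  by_cases hv : v ∈ Metric.ball (0 : ℂ) 2
  · rw [indicator_of_mem hv]
    by_cases hb : b0 ch ζ R v = 0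
    · rw [hb]
      have : jd v * ((0 : ℝ) ^ 2 * jd v) = 0 := by ring
      rw [this]
      positivity
    · have h4 := VBR_supp ch ζ R hζ hζ8 hR hch v hb
      have h5 : ‖v‖ ^ 2 ≤ R ^ (-(1 / 2) : ℝ) / 4 := h4.trans h3
      obtain ⟨h6, h7⟩ := VBR_bd ch ζ R hch v
      have h8 : b0 ch ζ R v ^ 2 ≤ Real.exp (-(R * ‖v‖ ^ 2)) := by
        have h9 : Real.exp (-(R * ‖v‖ ^ 2)) = Real.exp (-(R * ‖v‖ ^ 2 / 2)) ^ 2 := by
          rw [← Real.exp_nat_mul]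
          congr 1
          push_cast
          ring
        rw [h9]
        exact pow_le_pow_left₀ h6 h7 2
      have h10 : jd v * jd v ≤ 1 + R ^ (-(1 / 2) : ℝ) := by
        unfold jd
        set e := R ^ (-(1 / 2) : ℝ)
        set y := ‖v‖ ^ 2 with hy
        have hy0 : 0 ≤ y := by positivity
        have h11 : 0 < 1 - y / 4 := by linarith
        rw [← mul_inv]
        rw [inv_le_comm₀ (by positivity) (by positivity)]
        rw [inv_le_iff_one_le_mul₀ (by positivity)]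
        have h12 : 1 - y ≤ (1 - y / 4) ^ 2 * (1 - y / 4) ^ 2 := by
          nlinarith [sq_nonneg y, sq_nonneg (y / 4), mul_nonneg hy0 hy0, sq_nonneg (1 - y / 4), sq_nonneg ((1 - y / 4) ^ 2 - 1)]
        have h13 : 1 ≤ (1 - y) * (1 + e) := by nlinarith
        calc (1 : ℝ) ≤ (1 - y) * (1 + e) := h13
          _ ≤ (1 - y / 4) ^ 2 * (1 - y / 4) ^ 2 * (1 + e) := mul_le_mul_of_nonneg_right h12 (by positivity)
      have h14 : 0 ≤ jd v := VBR_jd0 v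
      calc jd v * (b0 ch ζ R v ^ 2 * jd v) = (jd v * jd v) * b0 ch ζ R v ^ 2 := by ring
        _ ≤ (1 + R ^ (-(1 / 2) : ℝ)) * Real.exp (-(R * ‖v‖ ^ 2)) :=
          mul_le_mul h10 h8 (by positivity) (by positivity)
  · rw [indicator_of_notMem hv]
    positivity

theorem VBR_low (ch : ℝ → ℝ) (ζ R : ℝ) (hζ : 0 < ζ) (hζ8 : ζ ≤ 1 / 8) (hR : 256 ≤ R) (hch : CH ch) (v : ℂ) :
    Real.exp (-(R * ‖v‖ ^ 2)) - Real.exp (-(R ^ (2 * ζ) / 4)) * Real.exp (-(R / 2 * ‖v‖ ^ 2)) ≤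
    (Metric.ball (0 : ℂ) 2).indicator (fun v => jd v * (b0 ch ζ R v ^ 2 * jd v)) v := by
  obtain ⟨h1, h2, h3, -, h5⟩ := VBR_num ζ R hζ hζ8 hR
  have hR0 : 0 < R := by linarith
  have hF : 0 ≤ (Metric.ball (0 : ℂ) 2).indicator (fun v => jd v * (b0 ch ζ R v ^ 2 * jd v)) v := by
    refine indicator_nonneg (fun w _ => ?_) v
    have := VBR_jd0 w
    positivity
  rcases le_or_gt (‖v‖ ^ 2) ((R ^ (-(1 / 2) + ζ)) ^ 2 / 2) with hv | hv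
  · have h6 : ‖v‖ < 2 := by
      have : 0 ≤ R ^ (-(1 / 2) + ζ) := Real.rpow_nonneg hR0.le _
      nlinarith [norm_nonneg v]
    have h7 : v ∈ Metric.ball (0 : ℂ) 2 := by rwa [mem_ball_zero_iff]
    rw [indicator_of_mem h7, VBR_one ch ζ R hζ hζ8 hR hch v hv]
    have h8 := VBR_jd v h6
    have h9 : Real.exp (-(R * ‖v‖ ^ 2)) = Real.exp (-(R * ‖v‖ ^ 2 / 2)) ^ 2 := by
      rw [← Real.exp_nat_mul]
      congr 1
      push_cast
      ring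
    have h10 : 0 < Real.exp (-(R ^ (2 * ζ) / 4)) * Real.exp (-(R / 2 * ‖v‖ ^ 2)) := by positivity
    rw [← h9]
    have h11 : 0 < Real.exp (-(R * ‖v‖ ^ 2)) := Real.exp_pos _
    have h12 : 1 ≤ jd v * jd v := by nlinarith
    nlinarith
  · refine le_trans ?_ hF
    have h6 : Real.exp (-(R * ‖v‖ ^ 2)) = Real.exp (-(R / 2 * ‖v‖ ^ 2)) * Real.exp (-(R / 2 * ‖v‖ ^ 2)) := by
      rw [← Real.exp_add]
      congr 1
      ring
    have h7 : Real.exp (-(R / 2 * ‖v‖ ^ 2)) ≤ Real.exp (-(R ^ (2 * ζ) / 4)) := by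
      refine Real.exp_le_exp.2 ?_
      rw [← h5]
      nlinarith
    rw [h6]
    have h8 : 0 < Real.exp (-(R / 2 * ‖v‖ ^ 2)) := Real.exp_pos _
    nlinarith

theorem VBR_bR (hVCD : VCD_stmt) (hVCM : VCM_stmt) (ch : ℝ → ℝ) (ζ R : ℝ) (hζ : 0 < ζ) (hζ8 : ζ ≤ 1 / 8) (hR : 256 ≤ R)
    (hR2 : 2 * Real.exp (-(R ^ (2 * ζ) / 4)) ≤ R ^ (-(1 / 2) : ℝ)) (hch : CH ch) :
    (1 - R ^ (-(1 / 2) : ℝ)) * (Real.pi / R) ≤ bR ch ζ R ∧ bR ch ζ R ≤ (1 + R ^ (-(1 / 2) : ℝ)) * (Real.pi / R) := by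
  have hR0 : 0 < R := by linarith
  have hg := VBR_gint R hR0
  have hg2 := VBR_gint (R / 2) (by positivity)
  have hFm : AEStronglyMeasurable ((Metric.ball (0 : ℂ) 2).indicator (fun v => jd v * (b0 ch ζ R v ^ 2 * jd v)))
      (volume : Measure ℂ) := by
    have h1 : Measurable (b0 ch ζ R) := (VBR_smooth ch ζ R hch).continuous.measurable
    exact ((VBR_jm.mul ((h1.pow_const 2).mul VBR_jm)).indicator measurableSet_ball).aestronglyMeasurable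
  have hF0 : ∀ v, 0 ≤ (Metric.ball (0 : ℂ) 2).indicator (fun v => jd v * (b0 ch ζ R v ^ 2 * jd v)) v := by
    intro v
    refine indicator_nonneg (fun w _ => ?_) v
    have := VBR_jd0 w
    positivity
  have hU : Integrable (fun v : ℂ => (1 + R ^ (-(1 / 2) : ℝ)) * Real.exp (-(R * ‖v‖ ^ 2))) := hg.const_mul _
  have hF : Integrable ((Metric.ball (0 : ℂ) 2).indicator (fun v => jd v * (b0 ch ζ R v ^ 2 * jd v))) := by
    refine hU.mono' hFm (Eventually.of_forall fun v => ?_)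
    rw [Real.norm_of_nonneg (hF0 v)]
    exact VBR_up ch ζ R hζ hζ8 hR hch v
  rw [VBR_int hVCD hVCM]
  constructor
  · have h1 : ∫ v : ℂ, (Real.exp (-(R * ‖v‖ ^ 2)) - Real.exp (-(R ^ (2 * ζ) / 4)) * Real.exp (-(R / 2 * ‖v‖ ^ 2))) =
        Real.pi / R - Real.exp (-(R ^ (2 * ζ) / 4)) * (Real.pi / (R / 2)) := by
      rw [integral_sub hg (hg2.const_mul _), integral_const_mul, VBR_gauss R hR0, VBR_gauss (R / 2) (by positivity)]
    have h2 := integral_mono (hg.sub (hg2.const_mul (Real.exp (-(R ^ (2 * ζ) / 4))))) hF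
      (fun v => VBR_low ch ζ R hζ hζ8 hR hch v)
    have h2' : ∫ v : ℂ, (Real.exp (-(R * ‖v‖ ^ 2)) - Real.exp (-(R ^ (2 * ζ) / 4)) * Real.exp (-(R / 2 * ‖v‖ ^ 2))) ≤
      ∫ v : ℂ, (Metric.ball (0 : ℂ) 2).indicator (fun v => jd v * (b0 ch ζ R v ^ 2 * jd v)) v := h2
    rw [h1] at h2'
    refine le_trans ?_ h2'
    have h3 : Real.pi / R - Real.exp (-(R ^ (2 * ζ) / 4)) * (Real.pi / (R / 2)) =
        (1 - 2 * Real.exp (-(R ^ (2 * ζ) / 4))) * (Real.pi / R) := by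
      field_simp
    rw [h3]
    have h4 : 0 < Real.pi / R := div_pos Real.pi_pos hR0
    exact mul_le_mul_of_nonneg_right (by linarith) h4.le
  · have h2 := integral_mono hF hU (fun v => VBR_up ch ζ R hζ hζ8 hR hch v)
    rw [integral_const_mul, VBR_gauss R hR0] at h2
    exact h2

theorem VBR_proof (hVCD : VCD_stmt) (hVCM : VCM_stmt) : VBR_stmt := by
  intro ch ζ hch hζ hζ8
  obtain ⟨R0, hR0, hR1⟩ := VBR_large ζ hζ
  refine ⟨R0, by linarith, fun R hR => ?_⟩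
  have h256 : 256 ≤ R := hR0.trans hR
  have hRp : 0 < R := by linarith
  obtain ⟨h1, h2, -, -, -⟩ := VBR_num ζ R hζ hζ8 h256
  obtain ⟨h3, h4⟩ := VBR_bR hVCD hVCM ch ζ R hζ hζ8 h256 (hR1 R hR) hch
  have he : 0 < R ^ (-(1 / 2) : ℝ) := Real.rpow_pos_of_pos hRp _
  have hpR : 0 < Real.pi / R := div_pos Real.pi_pos hRp
  have hb0 : 0 < bR ch ζ R := by
    have : 0 < (1 - R ^ (-(1 / 2) : ℝ)) * (Real.pi / R) := mul_pos (by linarith) hpR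
    linarith
  have hcc : cR ch ζ R ^ 2 = R ^ 2 / (2 * Real.pi * bR ch ζ R) := by
    unfold cR
    exact Real.sq_sqrt (by positivity)
  have hc0 : 0 ≤ cR ch ζ R := Real.sqrt_nonneg _
  have hR3 : (R ^ (3 / 2 : ℝ)) ^ 2 = R ^ 3 := by
    rw [← Real.rpow_natCast, ← Real.rpow_mul hRp.le, ← Real.rpow_natCast]
    congr 1
    norm_num
  have hR30 : 0 < R ^ (3 / 2 : ℝ) := Real.rpow_pos_of_pos hRp _
  refine ⟨VBR_smooth ch ζ R hch, fun v hv => ?_, VBR_bd ch ζ R hch, h2, h3, h4, ?_, ?_, ?_⟩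
  · have h5 := VBR_supp ch ζ R hζ hζ8 h256 hch v hv
    exact (sq_le_sq₀ (norm_nonneg v) (Real.rpow_nonneg hRp.le _)).1 h5
  · rw [hcc]
    field_simp
  · refine (sq_le_sq₀ (by positivity) hc0).1 ?_
    rw [hcc, div_pow, hR3, div_le_div_iff₀ (by norm_num) (by positivity)]
    have h5 : bR ch ζ R * R ≤ 2 * Real.pi := by
      have h6 := mul_le_mul_of_nonneg_right h4 hRp.le
      have h7 : (1 + R ^ (-(1 / 2) : ℝ)) * (Real.pi / R) * R = (1 + R ^ (-(1 / 2) : ℝ)) * Real.pi := by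
        field_simp
      rw [h7] at h6
      nlinarith [Real.pi_pos]
    have h8 : 2 * Real.pi * bR ch ζ R * R ≤ 64 := by
      have h9 := Real.pi_lt_d2
      nlinarith [Real.pi_pos]
    nlinarith [sq_nonneg R]
  · refine (sq_le_sq₀ hc0 hR30.le).1 ?_
    rw [hcc, hR3, div_le_iff₀ (by positivity)]
    have h5 : Real.pi / 2 ≤ bR ch ζ R * R := by
      have h6 := mul_le_mul_of_nonneg_right h3 hRp.le
      have h7 : (1 - R ^ (-(1 / 2) : ℝ)) * (Real.pi / R) * R = (1 - R ^ (-(1 / 2) : ℝ)) * Real.pi := by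
        field_simp
      rw [h7] at h6
      nlinarith [Real.pi_pos]
    have h8 : 1 ≤ 2 * Real.pi * (bR ch ζ R * R) := by
      have h9 := Real.pi_gt_three
      nlinarith [Real.pi_pos]
    have h10 : R ^ 3 * (2 * Real.pi * bR ch ζ R) = R ^ 2 * (2 * Real.pi * (bR ch ζ R * R)) := by ring
    rw [h10]
    nlinarith [sq_nonneg R]

end Pool.Agent.VQ
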